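import Mathlib
import Pool.Agent.K4H22.P.Rel
import Pool.Agent.X303.KThms

/-!
# MP_27fd67_ag: Parshin's conjecture on K-theory for the smooth projective varieties generated by
# almost all abelian varieties over finite fields with given CM fields

Let `K i`, for `i` in a finite nonempty set `I`, be CM fields and `p` a prime number. Let
`Weil K p n` be the finite set of all families `π` of Weil `p ^ n`-numbers `π i ∈ K i` (no condition
on the slopes). By the theorem of Honda and Tate a family `π` all powers of which generate the fields
`K i` is the family of the Frobenius endomorphisms of absolutely simple abelian varieties `B i` over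
the field with `p ^ n` elements, each determined up to isogeny, and all absolutely simple abelian
varieties with Frobenius field `K i` are of this type.

Over an algebraic closure of the field with `p` elements each abelian variety is isogenous to the
reduction of an abelian variety of CM type (Honda, Tate). So an abelian variety over the field with
`p ^ a` elements is modelled by `RedAV`: a finite product of CM types `(E i, Φ i)` with Weil numbers
`π i ∈ E i` that satisfy the formula of Shimura and Taniyama; its cohomology of degree `n`, with
coefficients in an algebraically closed field `Ω`, consists of the alternating `n`-forms on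
`Ω ⊗ H_1`, on which the Frobenius endomorphism acts by `π`. We fix an isomorphism `ν` of the algebraic
closure of `ℚ_p` with `ℂ`.

For a family `π` let `𝒞` (`OfFrobenius`) be the class of all abelian varieties `Y` over finite fields
of characteristic `p` that are, over an algebraic closure, isogenous to a product of a supersingular
abelian variety and of powers of the `B i`. Let `𝒢` be the smallest class (`Generated`) of schemes `X`
of finite type over a finite field that contains those with the homology groups of abelian varieties in
`𝒞` (`IsAbelianOfFrobenius`), that is closed under direct summands of finite sums of twists of motives,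
and that contains all of a closed subscheme `Z` of `X`, `X` and `X ∖ Z` if it contains two of them. It
contains for instance all products of varieties in `𝒞`, all products of curves with Jacobians in `𝒞`
and of open subsets of such curves, symmetric powers of them, and the singular and the open varieties
with a stratification by such varieties. `Parshin` says that Parshin's conjecture is true for all
smooth projective `X` in `𝒢`: `K_m(X) ⊗ ℚ = 0` for all `m ≥ 1`.

Theorem. Suppose that some rational function on the set of the `p`-adic embeddings of the `K i`,
constant on the embeddings that belong to the same place and antisymmetric under the complex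
conjugation, has the property that its translates (by all identifications of the algebraic numbers in
the algebraic closure of `ℚ_p` with the algebraic closure of `ℚ`) span the space of all
antisymmetric functions (`Crit K p`). This is so if `p` splits completely in all `K i`, for all
families `K i` that are independent, in particular for every single CM field, and infinitely many
prime numbers split completely in the `K i`. Then for all families of Weil `p ^ n`-numbers `π` in the
`K i`, with the exception of a proportion of `C / n` of them at most (there are at least `c n` of them
if `n` is even), all powers of the `π i` generate the `K i` and Parshin's conjecture is true for all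
smooth projective varieties generated by the abelian varieties as above.

`Homology Ω V` are data of motivic homology `M X i j = H_i^M(X, ℚ(j)) = CH_j(X, i - 2 j) ⊗ ℚ` and of
`ℓ`-adic homology `E X i j = H_i(X, ℚ_ℓ(j))` (coefficients extended to `Ω`) of schemes `X` of finite
type over a finite field (the elements of `V`), with the Frobenius and the regulator. Smooth projective
schemes are `IsPure` by the theorem of Deligne. The groups `G m = K_m(X)` are groups that embed, up to
torsion, into the sum of the groups `H_(m + 2 j)^M(X, ℚ(j)) = CH_j(X, m) ⊗ ℚ` (`IsKTheory`; Bloch,
Levine). Properties of the theory of cycles that are used for the abelian varieties (`IsChow`,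
`IsMotivic`): Poincaré duality, the formal properties of correspondences, the nilpotence of
homologically trivial correspondences (Kimura), the operation of the Frobenius endomorphism on higher
Chow groups, the vanishing of the higher rational `K`-groups of a finite field (Quillen), and the
algebraicity of the classes in `Alg` (of which only products of classes of divisors matter here,
theorem of Tate). The passage from the Tate conjecture to all degrees and to the class `Generated` is
due to Soulé, Geisser, Kahn and Jannsen.
-/

set_option autoImplicit false

namespace Pool.Agent.K4H22.Old.ZeroOneParshin

open NumberField Module Pool.Agent.K4H22 Pool.Agent.K4H22.ZeroOne Pool.Agent.K4H22.P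

open Pool.Agent.W495.TA Pool.Agent.W495.FM Pool.Agent.X303.TBDual

/-- Parshin's conjecture for the `K`-groups of the smooth projective `X` generated by abelian
varieties that are, over an algebraic closure, isogenous to products of supersingular ones and of
powers of the simple ones with the Weil numbers `π i`. -/
def Parshin (p n : ℕ) [Fact p.Prime] {I : Type} {K : I → Type} [∀ i, Field (K i)] (π : ∀ i, K i) :
    Prop :=
  ∀ (ν : PadicAlgCl p ≃+* ℂ) (Ω : Type) [Field Ω] [IsAlgClosed Ω] [CharZero Ω] (V : Type)
    (T : Homology Ω V), IsHomology T → ∀ X : V, Generated T (IsAbelianOfFrobenius ν n π T) X →
    ∀ (_ : IsPure T X) (G : ℤ → Type) [∀ m, AddCommGroup (G m)] (_ : IsKTheory T X G) (m : ℤ)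
      (_ : 1 ≤ m) (x : G m), IsOfFinAddOrder x

/-- **Under the criterion for the CM fields `K i` and the prime number `p`, which holds for
completely split `p` and independent fields, for all but `C / n` of the families of Weil
`p ^ n`-numbers `π` in the `K i` Parshin's conjecture is true for all smooth projective varieties
generated by products of supersingular abelian varieties and of powers of the simple abelian varieties
with the Weil numbers `π i`.** -/
theorem result {I : Type} [Fintype I] [Nonempty I] (K : I → Type) [∀ i, Field (K i)]
    [∀ i, NumberField (K i)] [∀ i, IsCMField (K i)] :
    -- almost all families of Weil numbers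
    (∀ (p : ℕ) [Fact p.Prime], Crit K p →
      (∃ C : ℝ, ∀ n : ℕ, (n : ℝ) *
        {π ∈ Weil K p n | ¬ ((∀ i, ∀ s : ℕ, 0 < s → IntermediateField.adjoin ℚ {π i ^ s} = ⊤) ∧
          Parshin p n π)}.ncard ≤ C * (Weil K p n).ncard) ∧
      ∃ c : ℝ, 0 < c ∧ ∀ m : ℕ, c * m ≤ (Weil K p (2 * m)).ncard) ∧
    -- the criterion holds for completely split primes, of which there are infinitely many
    (Independent K → ∀ (p : ℕ) [Fact p.Prime], (∀ i, Splits p (K i)) → Crit K p) ∧
    (∀ N : ℕ, ∃ (p : ℕ) (_ : Fact p.Prime), N < p ∧ ∀ i, Splits p (K i)) ∧
    (∀ (L : Type) [Field L] [NumberField L] [IsCMField L], Independent (fun _ : Unit => L)) := by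
  refine ⟨fun p _ hc => ?_, fun h1 p _ h2 => crit_iff.2 (Z.crit_of_splits h1 h2), fun N => ?_,
    fun L _ _ _ => independent_iff.2 (Z.independent_unit L)⟩
  · have hex : ∃ n, ∃ π ∈ Z.Weil p K n, Z.Good p n π := Z.exists_good_iff.2 (crit_iff.1 hc)
    refine ⟨?_, Z.growth hex⟩
    obtain ⟨C, hC⟩ := Z.almost_all hex
    refine ⟨C, fun n => ?_⟩
    refine le_trans ?_ (hC n)
    rcases Nat.eq_zero_or_pos n with rfl | hn
    · simp
    · refine mul_le_mul_of_nonneg_left ?_ (Nat.cast_nonneg n)
      have hle : {π ∈ Weil K p n | ¬ ((∀ i, ∀ s : ℕ, 0 < s →
          IntermediateField.adjoin ℚ {π i ^ s} = ⊤) ∧ Parshin p n π)}.ncard ≤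
          {π ∈ Z.Weil p K n | ¬ Z.Good p n π}.ncard := by
        refine Set.ncard_le_ncard ?_ ((Z.weil_finite n).subset fun π h => h.1)
        rintro π ⟨hW, h⟩
        refine ⟨hW, fun hG => h ⟨hG.1, ?_⟩⟩
        intro ν Ω _ _ _ V T hT X hX hpure G _ hK m hm x
        exact parshin_K hT (tb_frobenius hn hW hG hT hX) hpure hK (by omega) x
      exact_mod_cast hle
  · obtain ⟨p, hp, h1, h2⟩ := Pool.Agent.K4H21.CT.infinite_split K N
    exact ⟨p, hp, h1, h2⟩

end Pool.Agent.K4H22.Old.ZeroOneParshin
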